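import Pool.Agent.Helper62.Hovey.MainA
import Pool.Agent.Helper62.Hovey.Countable
import Pool.Agent.Helper62.Hovey.Equiv

/-!
# Hovey's statement for countable cohomology theories and maps with countable cofibre

`T` is a triangulated category with coproducts and countable products, generated by a countable family `c` of
compact objects with countable morphism sets (for example the stable homotopy category with `c` the finite spectra).
-/

open CategoryTheory CategoryTheory.Limits CategoryTheory.Pretriangulated
open Pool.Agent.Helper62.Hovey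

universe v u

namespace Pool.Agent.Results.MP_d26844_gt.CountableTheory

/-- If all groups `Hom(c i, E)` are countable then there is a homology theory `F` such that all `F_*`-equivalences
are `E^*`-equivalences, and such that conversely the `E^*`-equivalences with countable cone are
`F_*`-equivalences. -/
theorem result {T : Type u} [Category.{v} T] [HasZeroObject T] [HasShift T ℤ] [Preadditive T]
    [∀ n : ℤ, (shiftFunctor T n).Additive] [Pretriangulated T] [HasCoproducts.{v} T] [HasProductsOfShape ℕ T]
    {ι : Type} {c : ι → T} (hc : IsCountableGen.{v} c) (E : T) (hE : ∀ i, Countable (c i ⟶ E)) :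
    ∃ F : T ⥤ AddCommGrpCat.{v}, IsHomologyTheory.{v} F ∧
      (∀ {X Y : T} (u : X ⟶ Y), IsHomologyEquivalence F u → IsCohomologyEquivalence E u) ∧
      ∀ {X Y Z : T} (u : X ⟶ Y) (p : Y ⟶ Z) (q : Z ⟶ X⟦(1 : ℤ)⟧), Triangle.mk u p q ∈ distTriang T →
        IsCountableObj.{v} c Z → (IsCohomologyEquivalence E u ↔ IsHomologyEquivalence F u) := by
  have key : ∀ {X Y Z : T} (u : X ⟶ Y) (p : Y ⟶ Z) (q : Z ⟶ X⟦(1 : ℤ)⟧), Triangle.mk u p q ∈ distTriang T →
      (IsHomologyEquivalence (F c E) u ↔ ∀ n : ℤ, ProZero c E (Z⟦n⟧)) := by
    intro X Y Z u p q hT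
    have hhom := F_homological c E hc
    letI : (F c E).ShiftSequence ℤ := Functor.ShiftSequence.tautological (F c E) ℤ
    have h1 := (F c E).mem_homologicalKernel_trW_iff u
    have h2 := (F c E).homologicalKernel.trW_iff_of_distinguished _ hT
    refine h1.symm.trans (h2.trans ?_)
    change (∀ n : ℤ, IsZero ((F c E).obj (Z⟦n⟧))) ↔ _
    refine forall_congr' fun n => ?_
    rw [isZero_iff_forall, F_zero_iff hc]
    rfl
  have hback : ∀ {X Y : T} (u : X ⟶ Y), IsHomologyEquivalence (F c E) u → IsCohomologyEquivalence E u := by
    intro X Y u hu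
    obtain ⟨Z, p, q, hT⟩ := distinguished_cocone_triangle u
    have h := (key u p q hT).mp hu
    refine (cohomology_iso_iff E _ hT).mpr ?_
    rw [acyclic_shift_iff]
    exact acyclic_of_proZero hc E Z h
  refine ⟨F c E, F_isHomologyTheory hc E, hback, fun {X Y Z} u p q hT hZ => ⟨fun hu => ?_, hback u⟩⟩
  refine (key u p q hT).mpr fun n => ?_
  exact proZero_of_countable_acyclic hc hZ hE ((cohomology_iso_iff E _ hT).mp hu) n

end Pool.Agent.Results.MP_d26844_gt.CountableTheory
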