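import Pool.Agent.Helper62.Hovey.MainA
import Pool.Agent.Helper62.Hovey.Equiv

/-!
# Hovey's statement holds for infinite wedges of a cohomology theory

`T` is a triangulated category with coproducts and countable products, generated by a countable family `c` of
compact objects with countable morphism sets (for example the stable homotopy category with `c` the finite spectra).
-/

open CategoryTheory CategoryTheory.Limits CategoryTheory.Pretriangulated
open Pool.Agent.Helper62.Hovey

universe v u

namespace Pool.Agent.Results.MP_d26844_gt.InfiniteWedge

/-- For every object `E` there is one homology theory `F` such that, for every infinite index set `J`, the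
equivalences of the cohomology theory of the wedge `∐_J E` are exactly the `F_*`-equivalences. -/
theorem result {T : Type u} [Category.{v} T] [HasZeroObject T] [HasShift T ℤ] [Preadditive T]
    [∀ n : ℤ, (shiftFunctor T n).Additive] [Pretriangulated T] [HasCoproducts.{v} T] [HasProductsOfShape ℕ T]
    {ι : Type} {c : ι → T} (hc : IsCountableGen.{v} c) (E : T) :
    ∃ F : T ⥤ AddCommGrpCat.{v}, IsHomologyTheory.{v} F ∧
      ∀ (J : Type v) [Infinite J] {X Y : T} (u : X ⟶ Y),
        IsCohomologyEquivalence (∐ (fun _ : J => E)) u ↔ IsHomologyEquivalence F u :=
  ⟨F c E, F_isHomologyTheory hc E, fun J _ _ _ u => equivalence_iff hc E J u⟩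

end Pool.Agent.Results.MP_d26844_gt.InfiniteWedge
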