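import Pool.Agent.Helper62.HoveyS.MainS

/-!
# Hovey's statement for coproducts of noetherian cohomology theories

`T` is a triangulated category with coproducts and countable products, generated by a countable family `c` of
compact objects with countable morphism sets (for example the stable homotopy category with `c` the finite spectra).
-/

open CategoryTheory CategoryTheory.Limits CategoryTheory.Pretriangulated
open Pool.Agent.Helper62.Hovey

universe v u

namespace Pool.Agent.Results.MP_d26844_gt.NoetherianTheory

/-- The module `M` has an artinian submodule whose quotient `Q` is finitely generated with `Q / I Q` countable. -/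
def ArtinianByFinite {A : Type v} [CommRing A] (I : Ideal A) (M : Type v) [AddCommGroup M] [Module A M] : Prop :=
  ∃ Γ : Submodule A M, IsArtinian A Γ ∧ Module.Finite A (M ⧸ Γ) ∧
    Countable ((M ⧸ Γ) ⧸ (I • ⊤ : Submodule A (M ⧸ Γ)))

/-- A commutative noetherian ring `A`, complete for an ideal `I`, acts on `E` in such a way that every `A`-module
`Hom(c i, E)` has an artinian submodule whose quotient `Q` is finitely generated with `Q / I Q` countable. -/
def IsNoetherianTheory {T : Type u} [Category.{v} T] [Preadditive T] {ι : Type} (c : ι → T) (E : T) : Prop :=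
  ∃ (A : Type v) (_ : CommRing A) (I : Ideal A) (ρ : A →+* End E), IsNoetherianRing A ∧ IsAdicComplete I A ∧
    ∀ i, ArtinianByFinite I (HomMod ρ (c i))

/-- For every family `E k` of objects as in `IsNoetherianTheory` there is a homology theory `F` such that the
equivalences of the cohomology theory of the coproduct of the `E k` are exactly the `F_*`-equivalences. -/
theorem result {T : Type u} [Category.{v} T] [HasZeroObject T] [HasShift T ℤ] [Preadditive T]
    [∀ n : ℤ, (shiftFunctor T n).Additive] [Pretriangulated T] [HasCoproducts.{v} T] [HasProductsOfShape ℕ T]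
    {ι : Type} {c : ι → T} (hc : IsCountableGen.{v} c) {K : Type v} (E : K → T)
    (hE : ∀ k, IsNoetherianTheory c (E k)) :
    ∃ F : T ⥤ AddCommGrpCat.{v}, IsHomologyTheory.{v} F ∧
      ∀ {X Y : T} (u : X ⟶ Y), IsCohomologyEquivalence (∐ E) u ↔ IsHomologyEquivalence F u := by
  choose A iA I ρ iN iC Γ h₁ h₂ h₃ using hE
  let τ : ∀ k, LinTop (ρ k) c := fun k => adicTop (I k) (ρ k) (fun i => ⟨Γ k i, h₁ k i, h₂ k i⟩)
  have hsl : ∀ k, (τ k).Slender := fun k i U hU =>
    opn_slender (𝔞 := I k) (Γ k i) (h₁ k i) (h₂ k i) (h₃ k i) U hU
  exact ⟨FT (sumTop hc.compact τ), FT_isHomologyTheory _ hc, fun {X Y} u => equivalence_iff_of_sum hc τ hsl u⟩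

end Pool.Agent.Results.MP_d26844_gt.NoetherianTheory
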