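import Pool.Agent.Helper62.Hovey.Pairs

/-!
# Orthogonal pairs give cohomological equivalences which are not homological equivalences

`T` is a triangulated category with coproducts, generated by a countable family `c` of compact objects with
countable morphism sets, and braided monoidal.  `C n false` and `C n true` are objects with morphisms from the unit.
-/

open CategoryTheory CategoryTheory.Limits CategoryTheory.Pretriangulated MonoidalCategory
open Pool.Agent.Helper62.Hovey

universe v u

namespace Pool.Agent.Results.MP_d26844_gt.OrthogonalPairs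

/-- If every morphism from `C n true ⊗ X` to a shift of an object `C n false ⊗ Y` vanishes on `γ n true ⊗ X`, while
all finite tensor products of the morphisms `γ n b` are non-zero, then there are a cohomology theory `E` and a
morphism `u` which is not an `E^*`-equivalence but is an `F_*`-equivalence for every homology theory `F` for which
all `E^*`-equivalences are `F_*`-equivalences. -/
theorem result {T : Type u} [Category.{v} T] [HasZeroObject T] [HasShift T ℤ] [Preadditive T]
    [∀ n : ℤ, (shiftFunctor T n).Additive] [Pretriangulated T] [HasCoproducts.{v} T]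
    [MonoidalCategory T] [BraidedCategory T]
    {ι : Type} {c : ι → T} (hc : IsCountableGen.{v} c) (C : ℕ → Bool → T) (γ : ∀ n b, 𝟙_ T ⟶ C n b)
    (hunit : ∃ i, Nonempty (c i ≅ 𝟙_ T)) (htensor : ∀ n b i, ∃ j, Nonempty (c j ≅ C n b ⊗ c i))
    (orth : ∀ (n : ℕ) (X Y : T) (k : ℤ) (x : C n true ⊗ X ⟶ (C n false ⊗ Y)⟦k⟧),
      (λ_ X).inv ≫ γ n true ▷ X ≫ x = 0)
    (indep : ∀ w : List Bool, wordPoint C γ w ≠ 0) :
    ∃ (E X Y : T) (u : X ⟶ Y), ¬ IsCohomologyEquivalence E u ∧
      ∀ F : T ⥤ AddCommGrpCat.{v}, IsHomologyTheory.{v} F →
        (∀ {X' Y' : T} (u' : X' ⟶ Y'), IsCohomologyEquivalence E u' → IsHomologyEquivalence F u') →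
        IsHomologyEquivalence F u := by
  refine fails_of_pairs hc C γ hunit htensor orth fun w h => indep w ?_
  rw [← toNode_wordPoint, h, zero_comp]
  rfl

end Pool.Agent.Results.MP_d26844_gt.OrthogonalPairs
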